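import Pool.Agent.Q99.FAL.Stm2

/-!
# Periodicity of the Fourier vectors (proof of `S_PER`)
-/

set_option autoImplicit false

namespace Pool.Agent.Q149.FAL

open Pool.Agent.W715.VC (rt)
open Pool.Agent.Q191.TW (cs cs_period rt_cs)
open Pool.Agent.Q99.FAL

theorem rt_pow_N {N : ℕ} (hN : 0 < N) : rt N ^ N = -1 := by
  have hN' : (N : ℂ) ≠ 0 := by exact_mod_cast hN.ne'
  unfold rt
  rw [← Complex.exp_nat_mul, mul_div_cancel₀ _ hN', Complex.exp_pi_mul_I]

theorem ph_per {N : ℕ} (hN : 0 < N) (p a k x : ℤ) : ph N p (a + N * k) x = ph N p a x := by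
  unfold ph
  rw [← cs_period hN (-((x : ℝ) ^ 2 / 2 + ((N : ℝ) - 1) * p * x + 2 * a * x)) (-(k * x))]
  congr 1
  push_cast
  ring

theorem nu_per {N : ℕ} (hN : 0 < N) (s k : ℤ) : nu N (s + N * k) = ep N k * nu N s := by
  have h0 : rt N ≠ 0 := by
    intro h
    have := rt_pow_N hN
    rw [h, zero_pow hN.ne'] at this
    norm_num at this
  have h1 : (-(rt N)⁻¹) ≠ 0 := neg_ne_zero.2 (inv_ne_zero h0)
  have h2 : (-(rt N)⁻¹) ^ N = (-1 : ℂ) ^ (N + 1) := by
    rw [neg_pow, inv_pow, rt_pow_N hN, pow_succ]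
    norm_num
  unfold nu ep
  rw [zpow_add₀ h1, zpow_mul, zpow_natCast, h2]
  ring

theorem uu_per {N : ℕ} (hN : 0 < N) (R : List ℤ) (a k : ℤ) : ∀ (L : List ℤ) (p : ℤ)
    (l : List (Fin N)), uu N p (L ++ (a + N * k) :: R) l = uu N p (L ++ a :: R) l := by
  intro L
  induction L with
  | nil =>
    intro p l
    cases l with
    | nil => simp [uu]
    | cons x xs => simp only [List.nil_append, uu]; rw [ph_per hN]
  | cons b L ih =>
    intro p l
    cases l with
    | nil => simp [uu]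
    | cons x xs => simp only [List.cons_append, uu]; rw [ih]

theorem task_PER : S_PER := by
  intro N hN L R a k l
  unfold UU
  rw [uu_per hN]
  have h : (L ++ (a + N * k) :: R).sum = (L ++ a :: R).sum + N * k := by
    simp only [List.sum_append, List.sum_cons]
    ring
  rw [h, nu_per hN]
  ring

end Pool.Agent.Q149.FAL
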