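import Pool.Agent.Q99.FAL.Stm2

/-!
# The state sum, unrolled (proof of `S_UNR`)
-/

set_option autoImplicit false

namespace Pool.Agent.Q149.FAL

open Finset
open Pool.Agent.Q191.LB (sg)
open Pool.Agent.Q99.FAL

open Classical in
theorem task_UNR : S_UNR := by
  intro N D
  induction D with
  | nil =>
    intro G
    simp only [SD, Sol]
    have : (Finset.univ : Finset (Fin ([] : List Pc).length → Fin 6 → Fin N)) =
        {fun k => k.elim0} := by
      ext a
      simp only [Finset.mem_univ, Finset.mem_singleton, true_iff]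
      funext k
      exact k.elim0
    rw [this, Finset.sum_singleton]
    simp
  | cons P D ih =>
    intro G
    rw [SD]
    refine Eq.trans ?_ ((Fin.consEquiv (fun _ : Fin (D.length + 1) => Fin 6 → Fin N)).sum_comp
      (fun a : Fin (D.length + 1) → Fin 6 → Fin N =>
        if Sol (P :: D) (fun k => zz (a k)) G ((N : ℤ) - 1) then
          ∏ k : Fin (D.length + 1), wt6 N (sg ((P :: D).get k).σ * ((P :: D).get k).m) (zz (a k))
            else 0))
    rw [Fintype.sum_prod_type]
    refine Finset.sum_congr rfl fun x _ => ?_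
    by_cases hx : n1 (zz x) + n2 (zz x) = N - 1 ∧
      (∀ c ∈ cls P.ty P.p (cor (zz x)) G, c = N - 1)
    · rw [if_pos hx, ih, Finset.mul_sum]
      refine Finset.sum_congr rfl fun y _ => ?_
      have h1 : (Sol (P :: D) (fun k => zz ((Fin.consEquiv (fun _ : Fin (D.length + 1) =>
          Fin 6 → Fin N)) (x, y) k)) G ((N : ℤ) - 1)) ↔
          Sol D (fun k => zz (y k)) (stp P.ty P.p (cor (zz x)) G) ((N : ℤ) - 1) := by
        simp only [Sol]
        constructor
        · rintro ⟨_, _, h⟩
          exact h
        · intro h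
          exact ⟨hx.1, hx.2, h⟩
      by_cases hs : Sol D (fun k => zz (y k)) (stp P.ty P.p (cor (zz x)) G) ((N : ℤ) - 1)
      · rw [if_pos hs, if_pos (h1.2 hs)]
        have := Fin.prod_univ_succ (fun k : Fin (D.length + 1) => wt6 N (sg ((P :: D).get k).σ *
          ((P :: D).get k).m) (zz ((Fin.consEquiv (fun _ : Fin (D.length + 1) =>
          Fin 6 → Fin N)) (x, y) k)))
        exact this.symm
      · rw [if_neg hs, if_neg (fun h => hs (h1.1 h)), mul_zero]
    · rw [if_neg hx]
      symm
      refine Finset.sum_eq_zero fun y _ => ?_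
      rw [if_neg]
      intro h
      simp only [Sol] at h
      exact hx ⟨h.1, h.2.1⟩

end Pool.Agent.Q149.FAL
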